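import Pool.Agent.H590.PL.Stm

set_option autoImplicit false

noncomputable section

open MeasureTheory Set
open scoped ENNReal

namespace H736PL

open H590PL

theorem inner_int (p r h : ℝ) (hp : 1 < p) (hr : 0 ≤ r) (hh : 0 < h) :
    ∫⁻ t : ℝ, ENNReal.ofReal (|t| * (Real.exp (-(|t| ^ p * h)) * |t| ^ r)) =
      ENNReal.ofReal (2 / p * Real.Gamma ((2 + r) / p) * h ^ (-((2 + r) / p))) := by
  have hp0 : 0 < p := by linarith
  have e : (fun t : ℝ => |t| * (Real.exp (-(|t| ^ p * h)) * |t| ^ r)) =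
      fun t => (fun u : ℝ => u ^ (1 + r) * Real.exp (-h * u ^ p)) |t| := by
    funext t
    show _ = |t| ^ (1 + r) * Real.exp (-h * |t| ^ p)
    rw [Real.rpow_one_add' (abs_nonneg t) (by linarith)]
    have : -(|t| ^ p * h) = -h * |t| ^ p := by ring
    rw [this]
    ring
  have hI : ∫ t : ℝ, |t| * (Real.exp (-(|t| ^ p * h)) * |t| ^ r) =
      2 / p * Real.Gamma ((2 + r) / p) * h ^ (-((2 + r) / p)) := by
    rw [e, integral_comp_abs (f := fun u : ℝ => u ^ (1 + r) * Real.exp (-h * u ^ p)),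
      integral_rpow_mul_exp_neg_mul_rpow hp0 (by linarith) hh]
    have h2 : 1 + r + 1 = 2 + r := by ring
    rw [h2, neg_div]
    ring
  have hpos : 0 < 2 / p * Real.Gamma ((2 + r) / p) * h ^ (-((2 + r) / p)) := by
    have := Real.Gamma_pos_of_pos (show 0 < (2 + r) / p by positivity)
    positivity
  have hint : Integrable (fun t : ℝ => |t| * (Real.exp (-(|t| ^ p * h)) * |t| ^ r)) := by
    by_contra hc
    rw [integral_undef hc] at hI
    linarith
  rw [← ofReal_integral_eq_lintegral_ofReal hint (Filter.Eventually.of_forall fun t => by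
    positivity), hI]

variable {κ : Type} [Fintype κ]

theorem cont_ph (p : ℝ) (hp : 1 < p) (A B : κ → ℝ) : Continuous (ph p A B) := by
  unfold ph
  refine continuous_finsetSum _ fun i _ => ?_
  refine Continuous.rpow_const ?_ (fun _ => Or.inr (by linarith))
  fun_prop

theorem ph_nonneg (p : ℝ) (A B : κ → ℝ) (s : ℝ) : 0 ≤ ph p A B s :=
  Finset.sum_nonneg fun _ _ => Real.rpow_nonneg (abs_nonneg _) _

theorem cont_f (p r : ℝ) (hp : 1 < p) (hr : 0 ≤ r) (A B : κ → ℝ) (b : ℝ) :
    Continuous (fun x : P2 =>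
      Real.exp (-((∑ i, |A i * x.1 + B i * x.2| ^ p) + b * |x.2| ^ p)) * |x.2| ^ r) := by
  refine Continuous.mul (Real.continuous_exp.comp (Continuous.neg (Continuous.add ?_ ?_))) ?_
  · refine continuous_finsetSum _ fun i _ => ?_
    refine Continuous.rpow_const ?_ (fun _ => Or.inr (by linarith))
    fun_prop
  · refine continuous_const.mul (Continuous.rpow_const ?_ (fun _ => Or.inr (by linarith)))
    fun_prop
  · refine Continuous.rpow_const ?_ (fun _ => Or.inr hr)
    fun_prop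

/-- the value of the integrand in the chart -/
theorem chart_val (p r : ℝ) (A B : κ → ℝ) (b s t : ℝ) :
    Real.exp (-((∑ i, |A i * (t * s) + B i * t| ^ p) + b * |t| ^ p)) * |t| ^ r =
      Real.exp (-(|t| ^ p * (ph p A B s + b))) * |t| ^ r := by
  have h : (∑ i, |A i * (t * s) + B i * t| ^ p) = |t| ^ p * ph p A B s := by
    unfold ph
    rw [Finset.mul_sum]
    refine Finset.sum_congr rfl fun i _ => ?_
    rw [← Real.mul_rpow (abs_nonneg _) (abs_nonneg _), ← abs_mul]
    congr 2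
    ring
  rw [h]
  congr 3
  ring

/-- the chart `x = (t s, t)` for lower integrals -/
theorem lint_chart (F : ℝ × ℝ → ℝ≥0∞) (hF : Measurable F) :
    ∫⁻ x : ℝ × ℝ, F x = ∫⁻ t : ℝ, ∫⁻ s : ℝ, ENNReal.ofReal |t| * F (t * s, t) := by
  have h1 : ∫⁻ x : ℝ × ℝ, F x = ∫⁻ t : ℝ, ∫⁻ x : ℝ, F (x, t) := by
    rw [Measure.volume_eq_prod]
    exact lintegral_prod_symm _ hF.aemeasurable
  have hne : ∀ᵐ t : ℝ, t ≠ 0 := by
    have := measure_singleton (μ := (volume : Measure ℝ)) (0 : ℝ)
    exact compl_mem_ae_iff.2 this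
  rw [h1]
  refine lintegral_congr_ae ?_
  filter_upwards [hne] with t ht
  have hmt : Measurable (fun x : ℝ => F (x, t)) := hF.comp (measurable_id.prodMk measurable_const)
  have h2 : ∫⁻ x : ℝ, F (x, t) = ENNReal.ofReal |t| * ∫⁻ s : ℝ, F (t * s, t) := by
    have e := Real.smul_map_volume_mul_left ht
    have h3 : ∫⁻ x : ℝ, F (x, t) ∂(ENNReal.ofReal |t| • Measure.map (t * ·) volume) =
        ENNReal.ofReal |t| * ∫⁻ s : ℝ, F (t * s, t) := by
      rw [lintegral_smul_measure, lintegral_map hmt (measurable_const_mul t), smul_eq_mul]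
    rw [e] at h3
    exact h3
  rw [h2, lintegral_const_mul' _ _ ENNReal.ofReal_ne_top]

theorem key_lint (p r : ℝ) (hp : 1 < p) (hr : 0 ≤ r) (A B : κ → ℝ) (b : ℝ)
    (hph : ∀ s, 0 < ph p A B s + b) (hc : 0 ≤ 2 / p * Real.Gamma ((2 + r) / p)) :
    ∫⁻ x : P2, ENNReal.ofReal
      (Real.exp (-((∑ i, |A i * x.1 + B i * x.2| ^ p) + b * |x.2| ^ p)) * |x.2| ^ r) =
      ENNReal.ofReal (2 / p * Real.Gamma ((2 + r) / p)) *
        ∫⁻ s : ℝ, ENNReal.ofReal ((ph p A B s + b) ^ (-((2 + r) / p))) := by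
  have hm : Measurable (fun x : P2 => ENNReal.ofReal
      (Real.exp (-((∑ i, |A i * x.1 + B i * x.2| ^ p) + b * |x.2| ^ p)) * |x.2| ^ r)) :=
      (cont_f p r hp hr A B b).measurable.ennreal_ofReal
  have h1 := lint_chart _ hm
  refine h1.trans ?_
  have h2 : ∀ t s : ℝ, ENNReal.ofReal |t| * ENNReal.ofReal
      (Real.exp (-((∑ i, |A i * (t * s) + B i * t| ^ p) + b * |t| ^ p)) * |t| ^ r) =
      ENNReal.ofReal (|t| * (Real.exp (-(|t| ^ p * (ph p A B s + b))) * |t| ^ r)) := by
    intro t s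
    rw [← ENNReal.ofReal_mul (abs_nonneg t), chart_val]
  have h2' : ∫⁻ t : ℝ, ∫⁻ s : ℝ, ENNReal.ofReal |t| * ENNReal.ofReal
      (Real.exp (-((∑ i, |A i * (t * s) + B i * t| ^ p) + b * |t| ^ p)) * |t| ^ r) =
      ∫⁻ t : ℝ, ∫⁻ s : ℝ, ENNReal.ofReal
        (|t| * (Real.exp (-(|t| ^ p * (ph p A B s + b))) * |t| ^ r)) :=
    lintegral_congr fun t => lintegral_congr fun s => h2 t s
  have hm3 : Measurable (fun q : ℝ × ℝ => ENNReal.ofReal
        (|q.1| * (Real.exp (-(|q.1| ^ p * (ph p A B q.2 + b))) * |q.1| ^ r))) := by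
    refine Measurable.ennreal_ofReal (Continuous.measurable ?_)
    refine Continuous.mul (by fun_prop) (Continuous.mul (Real.continuous_exp.comp
      (Continuous.neg (Continuous.mul ?_ ?_))) ?_)
    · refine Continuous.rpow_const ?_ (fun _ => Or.inr (by linarith))
      fun_prop
    · exact ((cont_ph p hp A B).comp continuous_snd).add continuous_const
    · refine Continuous.rpow_const ?_ (fun _ => Or.inr hr)
      fun_prop
  have h3 : ∫⁻ t : ℝ, ∫⁻ s : ℝ, ENNReal.ofReal
        (|t| * (Real.exp (-(|t| ^ p * (ph p A B s + b))) * |t| ^ r)) =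
      ∫⁻ s : ℝ, ∫⁻ t : ℝ, ENNReal.ofReal
        (|t| * (Real.exp (-(|t| ^ p * (ph p A B s + b))) * |t| ^ r)) :=
    lintegral_lintegral_swap hm3.aemeasurable
  refine h2'.trans (h3.trans ?_)
  rw [← lintegral_const_mul' _ _ ENNReal.ofReal_ne_top]
  refine lintegral_congr fun s => ?_
  rw [inner_int p r _ hp hr (hph s), ENNReal.ofReal_mul hc]

theorem chart (p r : ℝ) (hp : 1 < p) (hr : 0 ≤ r) (A B : κ → ℝ) (b : ℝ) (hb : 0 < b) :
    ∫ x : P2, Real.exp (-((∑ i, |A i * x.1 + B i * x.2| ^ p) + b * |x.2| ^ p)) * |x.2| ^ r =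
      2 / p * Real.Gamma ((2 + r) / p) * ∫ s : ℝ, (ph p A B s + b) ^ (-((2 + r) / p)) := by
  have hp0 : 0 < p := by linarith
  have hph : ∀ s, 0 < ph p A B s + b := fun s => by
    have := ph_nonneg p A B s
    linarith
  have hc : 0 ≤ 2 / p * Real.Gamma ((2 + r) / p) := by
    have := Real.Gamma_pos_of_pos (show 0 < (2 + r) / p by positivity)
    positivity
  have hcont2 : Continuous (fun s : ℝ => (ph p A B s + b) ^ (-((2 + r) / p))) := by
    refine Continuous.rpow_const ((cont_ph p hp A B).add continuous_const) fun s => Or.inl ?_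
    exact (hph s).ne'
  have e1 := integral_eq_lintegral_of_nonneg_ae (μ := (volume : Measure P2))
    (f := fun x : P2 =>
      Real.exp (-((∑ i, |A i * x.1 + B i * x.2| ^ p) + b * |x.2| ^ p)) * |x.2| ^ r)
    (Filter.Eventually.of_forall fun x =>
      mul_nonneg (Real.exp_pos _).le (Real.rpow_nonneg (abs_nonneg _) _))
    (cont_f p r hp hr A B b).aestronglyMeasurable
  have e2 := integral_eq_lintegral_of_nonneg_ae (μ := (volume : Measure ℝ))
    (f := fun s : ℝ => (ph p A B s + b) ^ (-((2 + r) / p)))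
    (Filter.Eventually.of_forall fun s => Real.rpow_nonneg (hph s).le _)
    hcont2.aestronglyMeasurable
  rw [e1, e2, key_lint p r hp hr A B b hph hc, ENNReal.toReal_mul, ENNReal.toReal_ofReal hc]

theorem K3 : S_K3 := by
  intro κ _ p hp hp2 A B b hA hb
  have hp0 : 0 < p := by linarith
  constructor
  · have h := chart p 0 hp le_rfl A B b hb
    simp only [Real.rpow_zero, mul_one, add_zero] at h
    exact h
  · have h := chart p p hp hp0.le A B b hb
    have e : (2 + p) / p = 2 / p + 1 := by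
      field_simp
    rw [e, Real.Gamma_add_one (by positivity)] at h
    rw [h]
    ring

end H736PL
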